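import Pool.Agent.helper72.UP.Spec

set_option autoImplicit false

namespace Pool.Agent.helper72.UP

open Finset

theorem DEC (rat : RAT_stmt) : DEC_stmt := by
  intro n i d hn hi hn1
  induction d with
  | zero => simp
  | succ d ih =>
    by_cases h : 2 * (i + d) ≤ n
    · have h1 := rat n (i + d) (by omega) h (by omega)
      rw [show i + (d + 1) = i + d + 1 by ring]
      refine h1.trans ((mul_le_mul_of_nonneg_right ih (Real.exp_pos _).le).trans ?_)
      rw [mul_assoc, ← Real.exp_add]
      apply mul_le_mul_of_nonneg_left _ (Nat.cast_nonneg _)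
      apply Real.exp_le_exp.2
      have hn0 : (0 : ℝ) < n := by exact_mod_cast hn1
      have h2 : (n : ℝ) ≤ 4 * i := by exact_mod_cast hn
      rw [← neg_add, neg_le_neg_iff, ← add_div]
      apply div_le_div_of_nonneg_right _ hn0.le
      push_cast
      nlinarith
    · have h0 : uu n (i + (d + 1)) = 0 := by
        unfold uu
        rw [Nat.choose_eq_zero_of_lt (show n / 2 < i + (d + 1) by omega), Nat.mul_zero]
      rw [h0]
      have := (Real.exp_pos (-(4 * ((d + 1 : ℕ) : ℝ) * (((d + 1 : ℕ) : ℝ) - 1) / n))).le
      push_cast at this ⊢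
      positivity

end Pool.Agent.helper72.UP
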