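import Pool.Agent.helper72.UP.Spec

set_option autoImplicit false

namespace Pool.Agent.helper72.UP

open Finset

theorem UPB (van : VAN_stmt) (bal : BAL_stmt) (sta : STA_stmt) (flp : FLP_stmt) (eqc : EQC_stmt) : UPB_stmt := by
  classical
  intro n k x hk hx hTT
  by_cases h : ∃ i j, |x i| < |x j|
  · obtain ⟨i, j, hij⟩ := h
    obtain ⟨T, hT⟩ := flp n x
    have h1 := sta n (fun i => |x i|) i j T (fun a => abs_pos.2 (hx a)) hij
    have h2 : zer x k < cnt x 0 := by
      unfold zer cnt
      apply card_lt_card
      rw [ssubset_iff_of_subset]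
      · exact ⟨∅, by simp, by simp⟩
      · intro s hs
        rw [mem_filter] at hs ⊢
        exact ⟨mem_univ _, hs.2.2.2⟩
    have h3 := van n k hk
    have hn : 1 ≤ n := i.pos
    rw [← hT] at h1
    have h4 : n * (zer x k + 1) ≤ (n - 1) * n.choose (n / 2) := (Nat.mul_le_mul_left n h2).trans h1
    generalize n.choose (n / 2) = C at h3 h4 hTT
    have h5 : (n - 1) * C + C = n * C := by
      obtain ⟨m, rfl⟩ := Nat.exists_eq_add_of_le hn
      rw [Nat.add_sub_cancel_left]
      ring
    have h6 : n * C = n * (1 + VV n k) + n * TT n k := by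
      rw [← h3]
      ring
    have h7 : n * (zer x k + 1) ≤ n * (1 + VV n k) := by linarith
    have h8 := Nat.le_of_mul_le_mul_left h7 hn
    omega
  · push Not at h
    rcases Nat.eq_zero_or_pos n with hn | hn
    · subst hn
      have h0 : zer x k = 0 := by
        unfold zer
        rw [card_eq_zero, filter_eq_empty_iff]
        rintro s - ⟨⟨a, -⟩, -⟩
        exact a.elim0
      omega
    · have hc : ∀ i, |x i| = |x ⟨0, hn⟩| := fun i => le_antisymm (h ⟨0, hn⟩ i) (h i ⟨0, hn⟩)
      rw [eqc n k x |x ⟨0, hn⟩| (abs_pos.2 (hx _)) hc]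
      unfold VV uu
      apply sum_le_sum
      intro i hi
      have hab : #{a : Fin n | 0 < x a} + #{a : Fin n | x a < 0} = n := by
        have h1 : (univ.filter fun a : Fin n => x a < 0) = univ.filter fun a : Fin n => ¬ 0 < x a := by
          apply filter_congr
          intro a _
          have := hx a
          constructor
          · intro h2
            exact not_lt.2 h2.le
          · intro h2
            exact lt_of_le_of_ne (not_lt.1 h2) this
        rw [h1]
        have h2 := Finset.card_filter_add_card_filter_not (s := (univ : Finset (Fin n))) (fun a : Fin n => 0 < x a)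
        simpa using h2
      have h3 := bal (#{a : Fin n | 0 < x a}) (#{a : Fin n | x a < 0}) i
      rw [hab] at h3
      exact h3

end Pool.Agent.helper72.UP
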